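import Mathlib

set_option autoImplicit false

namespace Pool.Agent.Results.MP_36fb0d_co.NoIdem

open Filter Classical

/-- residue of a function along an ultrafilter -/
lemma resid (p : Ultrafilter ℕ) (f : ℕ → ℕ) (M : ℕ) (hM : 0 < M) :
    ∃ r, ∀ᶠ x in (p : Filter ℕ), f x ≡ r [MOD M] := by
  have h : (⋃ r ∈ (Finset.range M : Set ℕ), {x | f x % M = r}) ∈ p := by
    have : (⋃ r ∈ (Finset.range M : Set ℕ), {x | f x % M = r}) = Set.univ := by
      ext x
      simp only [Set.mem_iUnion, Set.mem_univ, iff_true]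
      exact ⟨f x % M, by simpa using Nat.mod_lt _ hM, rfl⟩
    rw [this]; exact univ_mem
  obtain ⟨r, -, hr⟩ := (Ultrafilter.finite_biUnion_mem_iff (Finset.finite_toSet _)).1 h
  refine ⟨r, mem_of_superset hr fun x hx => ?_⟩
  have hx' : f x % M = r := hx
  show f x % M = r % M
  rw [← hx', Nat.mod_mod]

noncomputable def col (A F : ℕ → ℕ) (x : ℕ) : Bool :=
  if _h : A (F x) < A x then !(col A F (F x)) else false
termination_by A x

lemma col_lt {A F : ℕ → ℕ} {x : ℕ} (h : A (F x) < A x) : col A F x = !(col A F (F x)) := by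
  rw [col, dif_pos h]

lemma col_congr {A F : ℕ → ℕ} {x y : ℕ} (h1 : A x = A y) (h2 : F x = F y) :
    col A F x = col A F y := by
  rw [col, col.eq_1 A F y, h1, h2]

section
variable (p : Ultrafilter ℕ)
  (hp : ∀ A : Set ℕ, A ∈ p → {n | {m | m ^ n ∈ A} ∈ p} ∈ p)
include hp

lemma nocol (c : ℕ → Bool)
    (h : ∀ᶠ n in (p : Filter ℕ), ∀ᶠ m in (p : Filter ℕ), c (m ^ n) = !(c n)) : False := by
  have key : ∀ i : Bool, {x | c x = i} ∈ p → False := by
    intro i hi
    obtain ⟨n, h1, h2, h3⟩ := (h.and (Eventually.and (f := (p : Filter ℕ)) hi (hp _ hi))).exists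
    obtain ⟨m, h4, h5⟩ := (h1.and h3).exists
    have h5' : c (m ^ n) = i := h5
    rw [h5', h2] at h4
    cases i <;> simp at h4
  rcases p.mem_or_compl_mem {x | c x = true} with h1 | h1
  · exact key _ h1
  · refine key false (mem_of_superset h1 fun x hx => ?_)
    simpa using hx

lemma even_case (h2 : ∀ᶠ x in (p : Filter ℕ), 2 ≤ x) (he : ∀ᶠ x in (p : Filter ℕ), 2 ∣ x) :
    False := by
  let a : ℕ → ℕ := fun x => padicValNat 2 x
  let b : ℕ → ℕ := fun x => a (a x)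
  choose β hβ using fun k => resid p b (2 ^ k) (by positivity)
  let φ : ℕ → ℕ := fun y => if h : ∃ k, ¬ y ≡ β (k + 1) [MOD 2 ^ (k + 1)] then Nat.find h else 0
  refine nocol p hp (fun x => col id φ (b x)) ?_
  filter_upwards [h2, he] with n hn hn'
  have hall : ∀ᶠ m in (p : Filter ℕ), ∀ k ∈ Finset.range (b n + 2), b m ≡ β k [MOD 2 ^ k] :=
    (Finset.eventually_all _).2 fun k _ => hβ k
  filter_upwards [h2, he, hall] with m hm hm' hk
  have an : a n ≠ 0 := by
    have := one_le_padicValNat_of_dvd (p := 2) (by omega) hn'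
    simp only [a]; omega
  have am : a m ≠ 0 := by
    have := one_le_padicValNat_of_dvd (p := 2) (by omega) hm'
    simp only [a]; omega
  have e : b (m ^ n) = a n + b m := by
    simp only [b, a]
    rw [padicValNat.pow, padicValNat.mul (by omega) am]
  have hx : ¬ b (m ^ n) ≡ β (b n + 1) [MOD 2 ^ (b n + 1)] := by
    intro h
    rw [e] at h
    have h1 := h.trans (hk (b n + 1) (by simp)).symm
    have h2 : a n ≡ 0 [MOD 2 ^ (b n + 1)] :=
      Nat.ModEq.add_right_cancel' (b m) (by simpa using h1)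
    exact pow_succ_padicValNat_not_dvd an ((Nat.modEq_zero_iff_dvd).1 h2)
  have hφ : φ (b (m ^ n)) = b n := by
    have hex : ∃ k, ¬ b (m ^ n) ≡ β (k + 1) [MOD 2 ^ (k + 1)] := ⟨_, hx⟩
    simp only [φ, dif_pos hex]
    rw [Nat.find_eq_iff]
    refine ⟨hx, fun k hk' => not_not.2 ?_⟩
    rw [e]
    have h1 : a n ≡ 0 [MOD 2 ^ (k + 1)] := (Nat.modEq_zero_iff_dvd).2
      ((pow_dvd_pow 2 (by omega : k + 1 ≤ b n)).trans pow_padicValNat_dvd)
    simpa using h1.add (hk (k + 1) (by simp; omega))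
  have hlt : b n < a n := by
    have h1 : 2 ^ b n ≤ a n := Nat.le_of_dvd (by omega) pow_padicValNat_dvd
    exact lt_of_lt_of_le Nat.lt_two_pow_self h1
  show col id φ (b (m ^ n)) = !(col id φ (b n))
  rw [col_lt (by simp only [id]; rw [hφ, e]; omega), hφ]

omit hp in
lemma odd_part_mul {n y : ℕ} (hn : ¬ 2 ∣ n) (hy : y ≠ 0) :
    padicValNat 2 (n * y) = padicValNat 2 y ∧
    n * y / 2 ^ padicValNat 2 (n * y) = n * (y / 2 ^ padicValNat 2 y) := by
  have hn0 : n ≠ 0 := by rintro rfl; simp at hn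
  have e : padicValNat 2 (n * y) = padicValNat 2 y := by
    rw [padicValNat.mul hn0 hy, padicValNat.eq_zero_of_not_dvd hn, zero_add]
  exact ⟨e, by rw [e, Nat.mul_div_assoc _ pow_padicValNat_dvd]⟩

omit hp in
lemma odd_part_cop {y : ℕ} (hy : y ≠ 0) (k : ℕ) :
    Nat.Coprime (2 ^ k) (y / 2 ^ padicValNat 2 y) := by
  apply Nat.Coprime.pow_left
  rw [Nat.Prime.coprime_iff_not_dvd Nat.prime_two]
  intro h
  apply pow_succ_padicValNat_not_dvd (p := 2) hy
  rw [pow_succ]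
  exact Nat.mul_dvd_of_dvd_div pow_padicValNat_dvd h

lemma to_one (h2 : ∀ᶠ x in (p : Filter ℕ), 2 ≤ x) (ho : ∀ᶠ x in (p : Filter ℕ), ¬ 2 ∣ x)
    (k : ℕ) : ∀ᶠ x in (p : Filter ℕ), x ≡ 1 [MOD 2 ^ k] := by
  let a : ℕ → ℕ := fun x => padicValNat x.minFac x
  let u : ℕ → ℕ := fun x => a x / 2 ^ padicValNat 2 (a x)
  obtain ⟨r, hr⟩ := resid p u (2 ^ k) (by positivity)
  filter_upwards [h2, ho, hp _ hr] with n hn hn' h
  obtain ⟨m, hm, h1, h3⟩ := (h2.and (hr.and h)).exists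
  haveI : Fact m.minFac.Prime := ⟨Nat.minFac_prime (by omega)⟩
  have am : a m ≠ 0 := by
    have := one_le_padicValNat_of_dvd (p := m.minFac) (by omega) (Nat.minFac_dvd m)
    simp only [a]; omega
  have e : a (m ^ n) = n * a m := by
    simp only [a]
    rw [Nat.pow_minFac (by omega), padicValNat.pow]
  have h3' : u (m ^ n) ≡ r [MOD 2 ^ k] := h3
  have e2 : u (m ^ n) = n * u m := by
    simp only [u]
    rw [e]
    exact (odd_part_mul hn' am).2
  rw [e2] at h3'
  have h4 : n * u m ≡ 1 * u m [MOD 2 ^ k] := by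
    rw [one_mul]; exact h3'.trans h1.symm
  exact Nat.ModEq.cancel_right_of_coprime (odd_part_cop am k) h4

lemma odd_case (h2 : ∀ᶠ x in (p : Filter ℕ), 2 ≤ x) (ho : ∀ᶠ x in (p : Filter ℕ), ¬ 2 ∣ x) :
    False := by
  let A : ℕ → ℕ := fun x => padicValNat 2 (x - 1)
  let U : ℕ → ℕ := fun x => (x - 1) / 2 ^ A x
  choose ω hω using fun k => resid p U (2 ^ k) (by positivity)
  have hρ : ∀ k, ∃ r, ∀ᶠ x in (p : Filter ℕ), U x * r ≡ 1 [MOD 2 ^ k] := by
    intro k
    obtain ⟨m, hm, h1⟩ := (h2.and (hω k)).exists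
    obtain ⟨r, hr⟩ := Nat.exists_mul_mod_eq_of_coprime 1
      (odd_part_cop (y := m - 1) (by omega) k).symm (by positivity)
    refine ⟨r, ?_⟩
    filter_upwards [hω k] with x hx
    exact ((hx.trans h1.symm).mul_right r).trans hr.2
  choose ρ hρ using hρ
  let F : ℕ → ℕ := fun x => (U x * ρ (A x)) % 2 ^ A x
  have hdec : ∀ x, x - 1 = 2 ^ A x * U x := fun x => (Nat.mul_div_cancel' pow_padicValNat_dvd).symm
  have loc : ∀ n y, 2 ≤ n → 1 ≤ y → y ≡ n [MOD 2 ^ (2 * A n + 1)] → A y = A n ∧ F y = F n := by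
    intro n y hn hy h
    have h1 : y - 1 ≡ n - 1 [MOD 2 ^ (2 * A n + 1)] :=
      Nat.ModEq.add_right_cancel' 1 (by
        rwa [Nat.sub_add_cancel hy, Nat.sub_add_cancel (by omega)])
    have hnd : ¬ 2 ^ (A n + 1) ∣ y - 1 := fun hd =>
      pow_succ_padicValNat_not_dvd (p := 2) (n := n - 1) (by omega)
        ((Nat.ModEq.dvd_iff h1 (pow_dvd_pow 2 (by omega : A n + 1 ≤ 2 * A n + 1))).1 hd)
    have hd : 2 ^ A n ∣ y - 1 :=
      (Nat.ModEq.dvd_iff h1 (pow_dvd_pow 2 (by omega : A n ≤ 2 * A n + 1))).2 pow_padicValNat_dvd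
    have hy0 : y - 1 ≠ 0 := fun h0 => hnd (by rw [h0]; exact dvd_zero _)
    have e : A y = A n := by
      apply le_antisymm
      · by_contra hlt
        exact hnd ((pow_dvd_pow 2 (by omega : A n + 1 ≤ A y)).trans (pow_padicValNat_dvd (p := 2) (n := y - 1)))
      · exact (padicValNat_dvd_iff_le hy0).1 hd
    refine ⟨e, ?_⟩
    rw [hdec y, hdec n, e, (by ring : 2 ^ (2 * A n + 1) = 2 ^ A n * 2 ^ (A n + 1))] at h1
    have h3 := (Nat.ModEq.mul_left_cancel' (by positivity) h1).of_dvd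
      (pow_dvd_pow 2 (Nat.le_succ (A n)))
    simp only [F]
    rw [e]
    exact h3.mul_right _
  refine nocol p hp (col A F) ?_
  filter_upwards [h2, ho] with n hn hn'
  set K := 2 * A n + 1 with hK
  filter_upwards [h2, to_one p hp h2 ho K, hω K] with m hm h1 h3
  have hAm : K ≤ A m := (padicValNat_dvd_iff_le (by omega)).1
    ((Nat.modEq_iff_dvd' (by omega)).1 h1.symm)
  set G := ∑ i ∈ Finset.range n, m ^ i with hG
  have e1 : m ^ n - 1 = G * (m - 1) := by
    rw [hG, Nat.geomSum_eq hm, Nat.div_mul_cancel (Nat.sub_one_dvd_pow_sub_one m n)]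
  have e2 : G ≡ n [MOD 2 ^ K] := by
    have : ∑ i ∈ Finset.range n, m ^ i ≡ ∑ _i ∈ Finset.range n, 1 [MOD 2 ^ K] :=
      Nat.ModEq.sum fun i _ => by simpa using h1.pow i
    simpa using this
  have hGo : ¬ 2 ∣ G := fun h => hn' ((Nat.ModEq.dvd_iff e2 (dvd_pow_self 2 (by omega))).1 h)
  have e3 := odd_part_mul hGo (y := m - 1) (by omega)
  have eA : A (m ^ n) = A m := by simp only [A]; rw [e1]; exact e3.1
  have eU : U (m ^ n) = G * U m := by simp only [U, A]; rw [e1]; exact e3.2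
  have e4 : U m * ρ (A m) ≡ 1 [MOD 2 ^ K] := by
    obtain ⟨x, hx1, hx2⟩ := ((hω K).and (hρ (A m))).exists
    exact ((h3.trans hx1.symm).mul_right _).trans (hx2.of_dvd (pow_dvd_pow 2 hAm))
  have e5 : F (m ^ n) ≡ n [MOD 2 ^ K] := by
    simp only [F]
    rw [eA, eU, mul_assoc]
    refine ((Nat.mod_modEq _ _).of_dvd (pow_dvd_pow 2 hAm)).trans ?_
    simpa using e2.mul e4
  have h5 : 1 ≤ F (m ^ n) := by
    by_contra h0
    have h0' : F (m ^ n) = 0 := by omega
    rw [h0'] at e5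
    exact hn' ((Nat.ModEq.dvd_iff e5 (dvd_pow_self 2 (by omega))).1 (dvd_zero _))
  obtain ⟨l1, l2⟩ := loc n _ hn h5 e5
  rw [col_lt (by rw [l1, eA]; omega), col_congr l1 l2]

end

theorem result : ¬ ∃ p : Ultrafilter ℕ+, (∀ n : ℕ+, p ≠ pure n) ∧
    ∀ A : Set ℕ+, A ∈ p ↔ {n : ℕ+ | {m : ℕ+ | m ^ (n : ℕ) ∈ A} ∈ p} ∈ p := by
  rintro ⟨p, h1, h2⟩
  let q : Ultrafilter ℕ := Ultrafilter.map PNat.val p
  have hq : ∀ A : Set ℕ, A ∈ q → {n | {m | m ^ n ∈ A} ∈ q} ∈ q := by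
    intro A hA
    have := (h2 _).1 (Ultrafilter.mem_map.1 hA)
    refine Ultrafilter.mem_map.2 (mem_of_superset this fun n hn => ?_)
    refine Ultrafilter.mem_map.2 (mem_of_superset hn fun m hm => ?_)
    simpa using hm
  have h3 : ∀ᶠ x in (q : Filter ℕ), 2 ≤ x := by
    have : ({1} : Set ℕ+)ᶜ ∈ p := by
      rw [Ultrafilter.compl_mem_iff_notMem]
      intro h
      exact h1 1 (Ultrafilter.eq_pure_of_finite_mem (Set.finite_singleton _) h |>.elim
        fun x hx => by rw [hx.2, Set.mem_singleton_iff.1 hx.1])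
    refine Ultrafilter.mem_map.2 (mem_of_superset this fun n hn => ?_)
    have h4 : (n : ℕ) ≠ 1 := fun h => hn (PNat.eq h)
    have := n.pos
    show 2 ≤ (n : ℕ)
    omega
  rcases q.mem_or_compl_mem {x | 2 ∣ x} with h | h
  · exact even_case q hq h3 h
  · exact odd_case q hq h3 h

end Pool.Agent.Results.MP_36fb0d_co.NoIdem
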